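import Pool.Agent.H99.D2.Fzh
import Pool.Agent.H18.PN.Stgc
import Pool.Agent.H28.TWO.Tda
import Pool.Agent.H33.PN.Box
import Pool.Agent.H12.LPK.Hup

/-!
# The mutual information of the alive orders, linear digits of the near path

`ip2_pairC`: 12's `ip2_pair` with the digits `C l + v`, `C l` of the near path. `ipc_sub`: the mutual
information of the alive orders at a record, from no look-ahead.
-/

set_option autoImplicit false

namespace Pool.PN18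

open Finset Real MvPolynomial
open Pool.Agent.H49.Ent Pool.Agent.H32.Dense Pool.STK Pool.KA Pool.KSAT Pool.K2S Pool.PB Pool.GEN
open Pool.S6C Pool.RCD Pool.LA91 Pool.OWN68 Pool.AJW Pool.AJX Pool.CHT Pool.PKG Pool.LPK12
open Pool.TWO28
open Pool.LP30 (paQ)
open Pool.CR99 (PairE)

/-- **(I') for the family of a pair**, linear digits of the near path. -/
theorem ip2_pairC {m : ℕ} {S : PCl m} {C₀ : ℝ} (htm : TmC S C₀) {c : ℕ → Fin m} {r : ℕ}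
    {sn : ℕ → ℝ → ℝ} {G : Set ℝ} {v w X φ lam kf : ℝ} {v₀ pf : ℕ → ℝ} {Nf : ℕ → ℕ → ℝ}
    {Kj : ℕ} (hch : ChG S c (r + 1) sn G) (H : JfN r sn G v w X φ lam kf v₀ Kj)
    (hpf : ∀ l < r, sn l w - φ ≤ pf l) {γ : ℝ} (hγ : 0 ≤ γ) (hγX : γ ≤ X) {C : ℕ → ℝ}
    (hC1 : ∀ l < r, nX r sn v X l ≤ C l + v) (hC2 : ∀ l < r, C l + v ≤ nX r sn v X l + γ)
    (hNf : ∀ l < r, ∀ j ≤ 1, Nf l j = C l + (1 - (j : ℕ)) * v)
    {K : ℕ} {I₂ : Finset (Fin m)} {κ₂ : Fin m} {lc e E₂ r₂ p₁ p₂ p₂' : ℝ} {E rd : ℕ → ℝ}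
    {Ψ : Fm2 m}
    (hΨ : PsL Ψ c r K I₂ κ₂ v lc e E₂ r₂ p₂' E rd (fun i => sn i v) (nX r sn v X))
    {e₁ k κ δ₂ δ γ₁ γ₂ n₁ n₂ m₁ m₂ : ℝ} {X₁ X₂ : ℕ → ℝ} {i₁ i₂ : ℕ} (hi₁ : i₁ ≤ K + 2)
    (hi₂ : i₂ ≤ K + 2) (hX₁ : ∀ l, i₁ ≤ l → X₁ i₁ ≤ X₁ l) (hX₂ : ∀ l, i₂ ≤ l → X₂ i₂ ≤ X₂ l)
    (hm₁ : m₁ ≤ p₁ + X₁ i₁ - i₁ * v + γ₁) (hm₂ : m₂ ≤ p₂ + X₂ i₂ - i₂ * v + γ₂)
    (hγ₁ : 0 ≤ γ₁) (hγ₂ : 0 ≤ γ₂) (hk : 0 ≤ k) (hee : e ≤ e₁) (he₁ : e₁ ≤ φ / 8)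
    (HT : TwO S Ψ (c r) κ₂ v i₁ i₂ n₁ n₂ m₁ m₂ w (paQ m c r v (fun l => sn l v)
      (fun l => C l + v) C) e₁ k κ)
    (HC : Fw2 S (fun J F => ptr F J) w (fun _ F => F.T)
      (qJets m c 0 r 1 (fun _ _ => w) (fun l _ => pf l) Nf)
      (CxJ Ψ K (c r) κ₂ v p₁ p₂ i₁ i₂ X₁ X₂ (MxP v k)) (τ := fun _ _ _ C => C)
      (fun J F _ _ _ _ _ c ω => c (vg v J F ω)) e δ₂)
    (hδ : κ + 2 * r * (γ * Real.log 2) + δ₂ + k + (γ₁ + γ₂) * Real.log 2 < δ) :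
    Ip2 S (fun J F => ptr F J) w (fun _ F => F.T)
      (qJets m c 0 r 1 (fun _ _ => w) (fun l _ => pf l) Nf)
      (CxJ Ψ K (c r) κ₂ v p₁ p₂ i₁ i₂ X₁ X₂ (MxP v k)) (c r) κ₂ v n₁ n₂ i₁ i₂ e δ := by
  obtain ⟨uv, rv, hrv, hcv⟩ := hch.ch v H.vG
  obtain ⟨uw, rw, hrw, hcw⟩ := hch.ch w H.wG
  have hv0 : 0 ≤ v := hcv.w0
  have hvw := H.vw.le
  have hw1 : w < 1 := hcw.u0
  obtain ⟨s, hs⟩ : ∃ s : ℝ, s = δ - (κ + 2 * r * (γ * Real.log 2) + δ₂ + k +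
    (γ₁ + γ₂) * Real.log 2) := ⟨_, rfl⟩
  have hs0 : 0 < s := by
    rw [hs]
    linarith
  have hN0 : ∀ l < r, Nf l 0 = C l + v := fun l hl => by
    have := hNf l hl 0 (by omega)
    rw [this, Nat.cast_zero, sub_zero, one_mul]
  have hN1 : ∀ l < r, Nf l 1 = C l := fun l hl => by
    have := hNf l hl 1 le_rfl
    rw [this, Nat.cast_one, sub_self, zero_mul, add_zero]
  refine ip2_of_two K htm (Qp := paQ m c r v (fun l => sn l v) (fun l => C l + v) C) (e₁ := e₁)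
      (δ₁ := 2 * r * (γ * Real.log 2) + s / 4)
    (δ₃ := s / 4) hv0 hvw hw1.le hi₁ hi₂ hX₁ hX₂ hm₁ hm₂ hγ₁ hγ₂ hk ?_ HT ?_ HC ?_ ?_
  · intro J F A V C z z' G₁ G₂ cc h
    obtain ⟨⟨g, h1, rfl, -⟩, h2⟩ := hΨ.1 J F A V C z z' G₁ G₂ cc h
    exact ⟨fun v => ((h1 r (Nat.zero_le _) (Nat.lt_succ_self r)).deg v).trans (Nat.le_succ K),
      fun v => (h2.deg v).trans (Nat.le_succ K), h2.cls⟩
  · refine hp_of_lbx (K := K) (lam := lc) (e := e) (γ := γ) (E := E) (rd := rd)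
      (n := nX r sn v X) htm hv0 (by linarith) hγ hC2
      (fun l hl => by linarith [hC2 l hl]) hee (by linarith) ?_
    rintro J F A V C z z' G₁ G₂ cc ⟨C₀, Y, c₀, y, y', h1, h2, h3, ⟨φ, hφ⟩, -⟩
    obtain ⟨⟨g, a1, a2, φ', a3⟩, a4⟩ := hΨ.1 J F A V C₀ z z' G₁ G₂ c₀ h1
    refine ⟨g, a1, fun x => φ' (φ x).1, fun x => ?_⟩
    show _ = φ' (φ (cc x)).1
    rw [a3, ← hφ]
    rfl
  · intro K₀ K₁
    refine hu_of_jf htm hch H hpf hγX hC1 (fun l hl => by linarith [hC1 l hl])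
      (fun l hl j hj => ?_) (fun l hl => (hN0 l hl).le) (fun l hl => (hN1 l hl).le)
      (hee.trans he₁) he₁ (by linarith) K₀ K₁
    rcases Nat.eq_zero_or_pos j with rfl | hj'
    · rw [hN0 l hl, Nat.cast_zero, zero_mul, sub_zero]
      exact hC2 l hl
    · obtain rfl : j = 1 := by omega
      rw [hN1 l hl, Nat.cast_one, one_mul]
      linarith [hC2 l hl]
  · linarith

/-- **The mutual information of the alive orders** at a record, from no look-ahead. -/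
theorem ipc_sub {r K K₁ : ℕ} (hr : 1 ≤ r) {a b x x' y y' τ' R : ℝ} (ha1 : 1 < a) (hab : a < b)
    (hx0 : 0 < x') (hxa : x ≤ a) (hy0 : 0 < y') (hyb : y ≤ b) (hR0 : 0 < R)
    (hRa : a * R = (a - x') * τ') (hRb : b * R = (b - y') * τ') (hτ1 : 1 ≤ τ')
    (hxτ : 1 ≤ x' * τ') (hyτ : 1 ≤ y' * τ')
    {S : PCl (r + 2)} {al : ℝ} {g₀ : ℝ → ℝ} {P : List (Fin (r + 2)) × Fin (r + 2) → ℝ → ℝ → ℝ}
    {θ : ℝ} {P₂ : ℕ → List (Fin (r + 2)) × Fin (r + 2) → ℝ → ℝ → ℝ} {θ₂ Eb e₂ : ℕ → ℝ}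
    {c : ℕ → Fin (r + 2)} {Pt : ℝ → ℝ → ℝ} {rt : ℝ → ℝ} {h K₀ g : ℝ} {L T : ℕ → ℝ → ℝ → ℝ}
    {Sl : ℕ → ℝ} {κ : ℕ → Kg} {G : Set ℝ} {S₀ N : ℕ} {A V : ℕ → ℝ} {S₂ N' : ℕ} {V' : ℕ → ℝ}
    {K' ε q t : ℝ}
    (Rc : RecG S al g₀ P θ P₂ θ₂ Eb e₂ c Pt rt h K₀ g L T Sl κ G S₀ N A V S₂ N' V' K' ε q t)
    (hκ : ∀ l < r, κ l = .one) (hSa : Sl r = a) (hSb : Sl (r + 1) = b)
    (hch : ChG S c (r + 1) (fun l x => L l x x) G) {X φ kf ℓ e' δ h' : ℝ} {N₀ : ℕ}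
    (hφ : 0 < φ) (hφ8 : φ ≤ 1 / 8) (hφX : 32 * (r + 1) * φ ≤ X)
    (hX : 2 * ((a + b + K + 8) * τ') + 8 ≤ X) (hkf : 3 ^ r * X ≤ kf) (hℓ : kf + τ' ≤ ℓ)
    (hℓK : ℓ ≤ K') (hK1 : τ' + 3 ^ r * X + 2 ≤ K') (hεφ : 2 * ε ≤ φ) (hε : 0 ≤ ε) (htG : t ∈ G)
    (hvG : ∀ k ≤ r, t + jfV r (-τ') X k * q ∈ G) {pf : ℕ → ℝ} {Nf : ℕ → ℕ → ℝ}
    (hpf : ∀ l < r, L l t t - φ * q ≤ pf l) (he' : 0 < e') (he1 : e' ≤ φ / 16) (hδ : 0 < δ)
    {v : ℝ} (hv : v = t + -τ' * q)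
    -- the digits of the near path: linear
    {C : ℕ → ℝ} {γ : ℝ} (hγ : 0 ≤ γ) (hγX : 2 * γ ≤ X * q)
    (hC1 : ∀ l < r, nX r (fun l x => L l x x) v (X * q) l + φ * q ≤ C l + v)
    (hC2 : ∀ l < r, C l + v ≤ nX r (fun l x => L l x x) v (X * q) l + γ)
    (hNf : ∀ l < r, ∀ j ≤ 1, Nf l j = C l + (1 - (j : ℕ)) * v)
    -- the base window
    {b₀ e₀ : ℝ} (hb₀ : b₀ ∈ G) (hbv : b₀ ≤ v) (he₀ : 0 ≤ e₀)
    (hdr : |L r v v - L r b₀ b₀ - a * (v - b₀)| ≤ e₀)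
    (hdn : |L (r + 1) v v - L (r + 1) b₀ b₀ - b * (v - b₀)| ≤ e₀)
    {d : ∀ (J : ℕ) (F : Fam (r + 2) J), LbD F} {vn En Rn Pn : ℝ} (hPn0 : 2 * q ≤ Pn)
    (hXb : L r b₀ b₀ + a * (t - b₀) + a * (2 * τ' * q) + (1 + a * (a * τ')) * q ≤
      L r b₀ b₀ + X * q)
    (hXn : L (r + 1) b₀ b₀ + b * (t - b₀) + b * (2 * τ' * q) + (1 + b * (b * τ')) * q ≤
      Pn + X * q)
    -- no look-ahead
    {κ₁ ρ : ℝ} (hρ : 0 ≤ ρ) (hκ₁ : 0 ≤ κ₁)
    (HA : ∀ i : ℕ, x' < i → (i : ℝ) ≤ x → i ≤ K + 2 → ∀ j : ℕ, y' < j → (j : ℝ) ≤ y →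
      j ≤ K + 2 → (i : ℝ) * b = j * a → (i : ℝ) < a → ∃ o : ℝ, t ≤ o ∧
      |(a - i) * (o - v) - a * (R * q)| ≤ ρ ∧ |(b - j) * (o - v) - b * (R * q)| ≤ ρ ∧
      Nla S (paQ (r + 2) c r v (fun l => L l v v) (fun l => C l + v) C)
        (qF c r d (c (r + 1)) b₀ vn (L r b₀ b₀) (L (r + 1) b₀ b₀) a b i j o e₀)
        (qF c r d (c (r + 1)) b₀ vn (L r b₀ b₀) (L (r + 1) b₀ b₀) a b i j t e₀) v t κ₁)
    (HB : ∀ i : ℕ, x' < i → (i : ℝ) ≤ x → i ≤ K + 2 → ∀ j : ℕ, y' < j → (j : ℝ) ≤ y →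
      j ≤ K + 2 → (i : ℝ) * b = j * a → (i : ℝ) = a → ∃ x₁ x₂ : ℝ,
      |x₁ - a * (R * q)| ≤ ρ ∧ |x₂ - b * (R * q)| ≤ ρ ∧
      Nlb S (paQ (r + 2) c r v (fun l => L l v v) (fun l => C l + v) C)
        (qG c r d (c (r + 1)) b₀ vn (L r b₀ b₀) (L (r + 1) b₀ b₀) i j x₁ x₂) v t κ₁)
    -- the numbers
    (hs1 : 16 * κ₁ ≤ δ * (R * q)) (hs2 : 16 * (r + 1) * γ ≤ δ * (R * q))
    (hs3 : 64 * (e₀ + ρ) ≤ δ * (R * q)) (hs4 : 64 * φ ≤ δ * R) (hs5 : ρ + 3 * e₀ ≤ q / 4) :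
    ∀ (Ψ : Fm2 (r + 2)) (E₂ r₂ : ℝ) (E rd : ℕ → ℝ),
      PairE S Ψ c r K ((range (r + 1)).image c) (c (r + 1)) a b R h' δ (ℓ * q) N₀ v t q
        (fun i => L i v v) (nX r (fun l x => L l x x) v (X * q)) (fun x => L (r + 1) x x) pf Nf
        (e' * q) E₂ r₂ (L (r + 1) v v) E rd vn Pn En Rn K₁ →
      DcpD Ψ d ((range r).image c) ((range (r + 1)).image c) (c (r + 1)) K₁ vn v En Rn Pn
        (e' * q) →
      IpC S Ψ c r K L q t a b x x' y y' τ' R φ pf Nf (e' * q) δ := by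
  intro Ψ E₂ r₂ E rd PE DD i hi1 hi2 hi3 j hj1 hj2 hj3 hij
  have hq := Rc.q0
  have ht0 := Rc.t0
  have ht1 := Rc.t1
  have ha0 : 0 < a := by linarith only [ha1]
  have hb0 : 0 < b := ha0.trans hab
  have hr0 : (0 : ℝ) ≤ r := Nat.cast_nonneg r
  have hK0 : (0 : ℝ) ≤ K := Nat.cast_nonneg K
  have hτ0 : 0 < τ' := by linarith only [hτ1]
  have hX0 : 0 < X := by
    have h1 : 0 ≤ (a + b + K + 8) * τ' := by positivity
    linarith only [h1, hX]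
  have h3X : 0 < 3 ^ r * X := by positivity
  have hφ1 : φ ≤ 1 := by linarith only [hφ8]
  have hv' : v = t - τ' * q := by rw [hv]; ring
  have hτq : q ≤ τ' * q := by
    have := mul_le_mul_of_nonneg_right hτ1 hq.le
    linarith only [this]
  have hRq : 0 < R * q := mul_pos hR0 hq
  have hφq : 0 < φ * q := mul_pos hφ hq
  have hφq8 : φ * q ≤ 1 / 8 * q := mul_le_mul_of_nonneg_right hφ8 hq.le
  have hKq : (τ' + 3 ^ r * X + 2) * q ≤ K' * q := mul_le_mul_of_nonneg_right hK1 hq.le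
  have h3Xq : 0 < 3 ^ r * X * q := mul_pos h3X hq
  have hvq : q ≤ v := by linarith only [hv', ht0, hKq, h3Xq, hq]
  have hvt : v ≤ t := by linarith only [hv', hτq, hq]
  have hK'q : 0 < K' * q := by linarith only [hKq, h3Xq, hτq, hq]
  have htl : t ≤ 1 := by linarith only [ht1, hK'q]
  have htv : t - v = τ' * q := by linarith only [hv']
  have hia : (i : ℝ) ≤ a := hi2.trans hxa
  have hjb : (j : ℝ) ≤ b := hj2.trans hyb
  have hi0 : (0 : ℝ) ≤ i := Nat.cast_nonneg i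
  have hj0 : (0 : ℝ) ≤ j := Nat.cast_nonneg j
  -- the windows
  have U : JfU r K (-τ') X φ (3 ^ r * X + τ') (3 ^ r * X) :=
    { vv0 := by linarith only [hτ0]
      φ0 := hφ
      XK := by
        rw [neg_neg]
        have h1 : 0 ≤ (a + b + 2) * τ' := by positivity
        have h2 : (a + b + K + 8) * τ' = (K + 6) * τ' + (a + b + 2) * τ' := by ring
        linarith only [h1, h2, hX]
      φX := hφX
      kfX := le_rfl
      lamk := by linarith only [] }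
  have Jn := Rc.jf hκ (by omega) U htG hvG (by linarith only [hK1]) (by linarith only [hK1]) hεφ
  rw [← hv] at Jn ⊢
  have hLv : v ≤ L (r + 1) v v :=
    Rc.low_at (by omega) (by linarith only [hvq, hq]) le_rfl (by linarith only [hvt, htl])
  have hpa : PaN r (fun l x => L l x x) v (X * q) (φ * q) (fun l => C l + v) C :=
    { lh := fun l hl => hC1 l hl
      lv := fun l hl => hC1 l hl
      uh := fun l hl => by linarith only [hC2 l hl, hγX]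
      uv := fun l hl => by linarith only [hC2 l hl, hγX] }
  -- the numbers
  obtain ⟨kk, hkk⟩ : ∃ kk : ℝ, kk = δ * (R * q) / 64 := ⟨_, rfl⟩
  have hδR : 0 < δ * (R * q) := mul_pos hδ hRq
  have hkk0 : 0 < kk := by rw [hkk]; positivity
  have heq0 : 0 < e' * q := mul_pos he' hq
  have heφq : e' * q ≤ φ * q / 16 := by
    have := mul_le_mul_of_nonneg_right he1 hq.le
    linarith only [this]
  have hP : φ * q / 8 ≤ min Pn (L (r + 1) v v) :=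
    le_min (by linarith only [hPn0, hφq8, hq]) (by linarith only [hLv, hvq, hφq8, hq])
  have hXq : 2 * (a * (τ' * q)) + 2 * (b * (τ' * q)) + 8 * q ≤ X * q := by
    have h1 := mul_le_mul_of_nonneg_right hX hq.le
    have h2 : 0 ≤ (K + 8) * τ' * q := by positivity
    have h3 : (2 * ((a + b + K + 8) * τ') + 8) * q = 2 * (a * (τ' * q)) + 2 * (b * (τ' * q)) +
      2 * ((K + 8) * τ' * q) + 8 * q := by ring
    linarith only [h1, h2, h3]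
  have haτ : 0 < a * (τ' * q) := mul_pos ha0 (mul_pos hτ0 hq)
  have hbτ : 0 < b * (τ' * q) := mul_pos hb0 (mul_pos hτ0 hq)
  have haR : a * (R * q) ≤ a * (τ' * q) := by
    have h1 : a * (R * q) = (a - x') * τ' * q := by rw [← hRa]; ring
    have h2 : 0 ≤ x' * τ' * q := by positivity
    have h3 : (a - x') * τ' * q = a * (τ' * q) - x' * τ' * q := by ring
    linarith only [h1, h2, h3]
  have hbR : b * (R * q) ≤ b * (τ' * q) := by
    have h1 : b * (R * q) = (b - y') * τ' * q := by rw [← hRb]; ring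
    have h2 : 0 ≤ y' * τ' * q := by positivity
    have h3 : (b - y') * τ' * q = b * (τ' * q) - y' * τ' * q := by ring
    linarith only [h1, h2, h3]
  have r1 := abs_le.1 hdr
  have r2 := abs_le.1 hdn
  have hab1 : a * (t - b₀) = a * (v - b₀) + a * (τ' * q) := by
    rw [hv']
    ring
  have hbb1 : b * (t - b₀) = b * (v - b₀) + b * (τ' * q) := by
    rw [hv']
    ring
  have hXb' : a * (v - b₀) + 3 * (a * (τ' * q)) + q ≤ X * q := by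
    have h1 : 0 ≤ a * (a * τ') * q := by positivity
    have h2 : a * (2 * τ' * q) = 2 * (a * (τ' * q)) := by ring
    have h3 : (1 + a * (a * τ')) * q = q + a * (a * τ') * q := by ring
    linarith only [hXb, hab1, h1, h2, h3]
  have hXn' : L (r + 1) b₀ b₀ + b * (v - b₀) + 3 * (b * (τ' * q)) + q ≤ Pn + X * q := by
    have h1 : 0 ≤ b * (b * τ') * q := by positivity
    have h2 : b * (2 * τ' * q) = 2 * (b * (τ' * q)) := by ring
    have h3 : (1 + b * (b * τ')) * q = q + b * (b * τ') * q := by ring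
    linarith only [hXn, hbb1, h1, h2, h3]
  have hiv : 0 ≤ i * (τ' * q) := by positivity
  have hjv : 0 ≤ j * (τ' * q) := by positivity
  have hat : (a - i) * (t - v) = a * (τ' * q) - i * (τ' * q) := by rw [htv]; ring
  have hbt : (b - j) * (t - v) = b * (τ' * q) - j * (τ' * q) := by rw [htv]; ring
  -- one bound for the digits of the jets
  have hu : ∀ n s : ℝ, n + i * v = L r b₀ b₀ + a * (v - b₀) + s → s ≤ a * (τ' * q) + 1 / 4 * q →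
      n + i * v + 3 * (φ * q) ≤ min ((fun i => L i v v) r) ((fun l x => L l x x) r b₀) + X * q := by
    intro n s h1 h2
    show n + i * v + 3 * (φ * q) ≤ min (L r v v) (L r b₀ b₀) + X * q
    rw [← min_add_add_right]
    refine le_min ?_ ?_
    · linarith only [h1, h2, r1.1, hXq, haτ, hbτ, hφq8, hq, he₀, hs5, hρ]
    · linarith only [h1, h2, hXb', haτ, hφq8, hq]
  have hs : ∀ n s : ℝ, n + j * v = L (r + 1) b₀ b₀ + b * (v - b₀) + s →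
      s ≤ b * (τ' * q) + 1 / 4 * q →
      n + j * v + 3 * (φ * q) ≤ min Pn (L (r + 1) v v) + X * q := by
    intro n s h1 h2
    rw [← min_add_add_right]
    refine le_min ?_ ?_
    · linarith only [h1, h2, hXn', hbτ, hφq8, hq]
    · linarith only [h1, h2, r2.1, hXq, haτ, hbτ, hφq8, hq, he₀, hs5, hρ]
  obtain ⟨m₁, hm₁⟩ : ∃ m₁ : ℝ, m₁ = dgn (L r b₀ b₀) b₀ a i t e₀ := ⟨_, rfl⟩
  obtain ⟨m₂, hm₂⟩ : ∃ m₂ : ℝ, m₂ = dgn (L (r + 1) b₀ b₀) b₀ b j t e₀ := ⟨_, rfl⟩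
  have em1 : m₁ + i * v = L r b₀ b₀ + a * (v - b₀) + ((a - i) * (t - v) - e₀) := by
    rw [hm₁]
    unfold dgn
    ring
  have em2 : m₂ + j * v = L (r + 1) b₀ b₀ + b * (v - b₀) + ((b - j) * (t - v) - e₀) := by
    rw [hm₂]
    unfold dgn
    ring
  obtain ⟨n₁, hn₁⟩ : ∃ n₁ : ℝ, n₁ = L r v v + a * (R * q) - i * v := ⟨_, rfl⟩
  obtain ⟨n₂, hn₂⟩ : ∃ n₂ : ℝ, n₂ = L (r + 1) v v + b * (R * q) - j * v := ⟨_, rfl⟩
  have hlog : Real.log 2 ≤ 1 := Real.log_two_lt_d9.le.trans (by norm_num)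
  have hlog0 : 0 ≤ Real.log 2 := (Real.log_pos one_lt_two).le
  have hρe : 0 ≤ ρ + 2 * e₀ := by linarith only [hρ, he₀]
  have hdig : κ₁ + kk + kk + 2 * ((ρ + 2 * e₀) + (ρ + 2 * e₀)) * Real.log 2 <
      κ₁ + kk + kk + 4 * (ρ + 2 * e₀) + kk := by
    have h1 := mul_le_mul_of_nonneg_left hlog hρe
    linarith only [h1, hkk0]
  have htwo : TwO S Ψ (c r) (c (r + 1)) v i j n₁ n₂ m₁ m₂ t
      (paQ (r + 2) c r v (fun l => L l v v) (fun l => C l + v) C) (e' * q) kk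
      (κ₁ + kk + kk + 4 * (ρ + 2 * e₀) + kk) := by
    rcases hia.lt_or_eq with hlt | heq
    · obtain ⟨o, hto, ho1, ho2, HN⟩ := HA i hi1 hi2 hi3 j hj1 hj2 hj3 hij hlt
      have o1 := abs_le.1 ho1
      have o2 := abs_le.1 ho2
      obtain ⟨x₁, hx₁⟩ : ∃ x₁ : ℝ, x₁ = dgn (L r b₀ b₀) b₀ a i o e₀ := ⟨_, rfl⟩
      obtain ⟨x₂, hx₂⟩ : ∃ x₂ : ℝ, x₂ = dgn (L (r + 1) b₀ b₀) b₀ b j o e₀ := ⟨_, rfl⟩
      have ex1 : x₁ + i * v = L r b₀ b₀ + a * (v - b₀) + ((a - i) * (o - v) - e₀) := by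
        rw [hx₁]
        unfold dgn
        ring
      have ex2 : x₂ + j * v = L (r + 1) b₀ b₀ + b * (v - b₀) + ((b - j) * (o - v) - e₀) := by
        rw [hx₂]
        unfold dgn
        ring
      unfold qF at HN
      rw [← hx₁, ← hx₂, ← hm₁, ← hm₂] at HN
      have X1 := two_da (sn := fun l x => L l x x) Rc.tmc hr hch Jn hpa PE.psl PE.ex DD heq0 heφq hP
        hb₀ hbv hvt htl hkk0 HN
        (hu _ _ ex1 (by linarith only [o1.2, haR, hs5, he₀, hρ]))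
        (hu _ _ em1 (by linarith only [hat, hiv, he₀, hq]))
        (hs _ _ ex2 (by linarith only [o2.2, hbR, hs5, he₀, hρ]))
        (hs _ _ em2 (by linarith only [hbt, hjv, he₀, hq])) kk
      refine two_dig Rc.tmc X1 (γ₁ := ρ + 2 * e₀) (γ₂ := ρ + 2 * e₀) ?_ ?_ hdig
      · rw [abs_le]
        constructor <;> linarith only [hn₁, ex1, o1.1, o1.2, r1.1, r1.2, he₀, hρ]
      · rw [abs_le]
        constructor <;> linarith only [hn₂, ex2, o2.1, o2.2, r2.1, r2.2, he₀, hρ]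
    · have heb : (j : ℝ) = b := by
        rw [heq] at hij
        have h1 : (j : ℝ) * a = b * a := by linarith only [hij]
        exact mul_right_cancel₀ ha0.ne' h1
      obtain ⟨y₁, y₂, ho1, ho2, HN⟩ := HB i hi1 hi2 hi3 j hj1 hj2 hj3 hij heq
      have o1 := abs_le.1 ho1
      have o2 := abs_le.1 ho2
      obtain ⟨x₁, hx₁⟩ : ∃ x₁ : ℝ, x₁ = L r b₀ b₀ - i * b₀ + y₁ := ⟨_, rfl⟩
      obtain ⟨x₂, hx₂⟩ : ∃ x₂ : ℝ, x₂ = L (r + 1) b₀ b₀ - j * b₀ + y₂ := ⟨_, rfl⟩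
      have ex1 : x₁ + i * v = L r b₀ b₀ + a * (v - b₀) + y₁ := by
        rw [hx₁, heq]
        ring
      have ex2 : x₂ + j * v = L (r + 1) b₀ b₀ + b * (v - b₀) + y₂ := by
        rw [hx₂, heb]
        ring
      unfold qG at HN
      rw [← hx₁, ← hx₂] at HN
      have X1 := two_db (sn := fun l x => L l x x) (m₁ := m₁) (m₂ := m₂) Rc.tmc hr hch Jn hpa PE.psl
        PE.ex DD heq0 heφq hP hb₀ hbv hvt htl hkk0 HN
        (hu _ _ ex1 (by linarith only [o1.2, haR, hs5, he₀, hρ]))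
        (hs _ _ ex2 (by linarith only [o2.2, hbR, hs5, he₀, hρ])) kk
      refine two_dig Rc.tmc X1 (γ₁ := ρ + 2 * e₀) (γ₂ := ρ + 2 * e₀) ?_ ?_ hdig
      · rw [abs_le]
        constructor <;> linarith only [hn₁, ex1, o1.1, o1.2, r1.1, r1.2, he₀, hρ]
      · rw [abs_le]
        constructor <;> linarith only [hn₂, ex2, o2.1, o2.2, r2.1, r2.2, he₀, hρ]
  refine ⟨MxP v kk, mxp_ex Rc.tmc hkk0.le, fun HC => ?_⟩
  have hxc : ∀ (A B : ℝ) (n : ℕ), B ≤ A → ∀ l, n ≤ l → xcf A B q n n ≤ xcf A B q n l := by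
    intro A B n hAB l hl
    unfold xcf
    rw [if_pos le_rfl]
    split_ifs
    · exact le_rfl
    · exact mul_le_mul_of_nonneg_right hAB hq.le
  have h1a : (a - i) * τ' - φ ≤ a * R := by
    have h1 := mul_le_mul_of_nonneg_left (show a - i ≤ a - x' by linarith only [hi1]) hτ0.le
    linarith only [h1, hRa, hφ]
  have h1b : (b - j) * τ' - φ ≤ b * R := by
    have h1 := mul_le_mul_of_nonneg_left (show b - j ≤ b - y' by linarith only [hj1]) hτ0.le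
    linarith only [h1, hRb, hφ]
  rw [← hn₁, ← hn₂]
  refine ip2_pairC Rc.tmc hch Jn hpf hγ (by linarith only [hγ, hγX])
    (fun l hl => by linarith only [hC1 l hl, hφq]) hC2 hNf PE.psl hi3 hj3
    (hxc _ _ i h1a) (hxc _ _ j h1b) (γ₁ := φ * q) (γ₂ := φ * q) (m₁ := m₁) (m₂ := m₂) ?_ ?_
    hφq.le hφq.le hkk0.le le_rfl (by linarith only [heφq, hφq]) htwo HC ?_
  · unfold xcf
    rw [if_pos le_rfl]
    have e3 : ((a - i) * τ' - φ) * q = a * (τ' * q) - i * (τ' * q) - φ * q := by ring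
    linarith only [em1, hat, e3, r1.1, he₀]
  · unfold xcf
    rw [if_pos le_rfl]
    have e3 : ((b - j) * τ' - φ) * q = b * (τ' * q) - j * (τ' * q) - φ * q := by ring
    linarith only [em2, hbt, e3, r2.1, he₀]
  · have b1 : 2 * r * (γ * Real.log 2) ≤ 2 * r * γ := by
      have := mul_le_mul_of_nonneg_left hlog hγ
      refine mul_le_mul_of_nonneg_left ?_ (by positivity)
      linarith only [this]
    have b2 : (φ * q + φ * q) * Real.log 2 ≤ 2 * (φ * q) := by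
      have := mul_le_mul_of_nonneg_left hlog (by linarith only [hφq] : 0 ≤ φ * q + φ * q)
      linarith only [this]
    have b3 : 64 * (φ * q) ≤ δ * (R * q) := by
      have := mul_le_mul_of_nonneg_right hs4 hq.le
      have h2 : δ * R * q = δ * (R * q) := by ring
      linarith only [this, h2]
    have b4 : 16 * (r + 1) * γ = 16 * (r * γ) + 16 * γ := by ring
    have b5 : 2 * (r : ℝ) * γ = 2 * (r * γ) := by ring
    have b6 : 0 ≤ (K : ℝ) * (δ * (R * q)) := mul_nonneg hK0 hδR.le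
    have b7 : (4 * (K : ℝ) + 18) * δ * (R * q) = 4 * (K * (δ * (R * q))) + 18 * (δ * (R * q)) := by
      ring
    have b8 : (2 * (K : ℝ) + 9) * δ * (R * q) = 2 * (K * (δ * (R * q))) + 9 * (δ * (R * q)) := by
      ring
    have b9 : 64 * kk = δ * (R * q) := by
      rw [hkk]
      ring
    linarith only [b1, b2, b3, b4, b5, b6, b7, b8, b9, hs1, hs2, hs3, hγ, hδR, he₀, hρ]

end Pool.PN18
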