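import Pool.Agent.H99.D2.Bxd
import Pool.Agent.H63.JAB.Thr

/-!
# The numbers of the resonant box exist

`resn_ex`. Order of the choices: `Tn`, `Nf`, `ε₁`, `n`, `lm`, `X`, `φ`, `kf`, `ℓ`, `e'`, `Nw`, `KB`,
then the bounds of `K'`, `ε`, `el`, `dl`.
-/

set_option autoImplicit false

namespace Pool.PN18

open Finset Real Pool.PKG

/-- The numbers `stR` are positive. -/
theorem stR_pos {K Ms : ℕ} {a b : ℝ} (ha : 0 < a) {x : ℕ → ℝ} {τ : ℕ → ℕ}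
    (HS : StgM a b K Ms x τ) {k : ℕ} (hk : k < Ms) : 0 < stR a x (fun i => (τ i : ℝ)) k := by
  have h1 : ∀ j ≤ Ms, x j ≤ a := by
    intro j
    induction j with
    | zero => exact fun _ => HS.x0.le
    | succ j ih => exact fun hj => ((HS.xs j hj).trans_le (ih (Nat.le_of_succ_le hj))).le
  have h2 : x (k + 1) < a := (HS.xs k hk).trans_le (h1 k hk.le)
  have h3 : (1 : ℝ) ≤ τ (k + 1) := by exact_mod_cast (HS.pos (k + 1) hk).2.1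
  unfold stR
  exact div_pos (mul_pos (sub_pos.2 h2) (by linarith only [h3])) ha

/-- **The numbers exist.** -/
theorem resn_ex {r K Ms : ℕ} {a b K₀ R₁ V₀ : ℝ} (ha1 : 1 < a) (hab : a < b) (hK₀ : 0 < K₀)
    (hR₁ : 0 ≤ R₁) (hV₀ : V₀ ≤ -(R₁ + 3)) {x : ℕ → ℝ} {τ : ℕ → ℕ} (HS : StgM a b K Ms x τ)
    {δ : ℕ → ℝ} {γ₁ : ℝ} (hδ : ∀ k < Ms, 0 < δ k) (hγ₁ : 0 < γ₁) :
    ∃ (Tn Nf n Nw : ℕ) (lm ε₁ X φ kf ℓ e' KB el₀ dl₀ K'₀ ε₀ : ℝ), 0 < lm ∧ 0 < X ∧ 0 < e' ∧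
      0 < el₀ ∧ 0 < dl₀ ∧ 0 < ε₀ ∧ ∀ K' : ℝ, K'₀ ≤ K' → ∀ ε : ℝ, 0 < ε → ε ≤ ε₀ →
      ∀ el dl : ℝ, 0 ≤ el → el ≤ el₀ → 0 ≤ dl → dl ≤ dl₀ →
      ResN r K a b K₀ R₁ V₀ Ms τ (stR a x (fun i => (τ i : ℝ))) δ γ₁ Tn Nf n Nw lm ε₁ X φ kf ℓ e'
        ε KB K' el dl := by
  have ha0 : 0 < a := by linarith only [ha1]
  have hb0 : 0 < b := by linarith only [ha0, hab]
  have hRr : ∀ k < Ms, 0 < stR a x (fun i => (τ i : ℝ)) k := fun k hk => stR_pos ha0 HS hk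
  generalize stR a x (fun i => (τ i : ℝ)) = Rr at *
  -- the minimum
  obtain ⟨c₀, hc₀, hc₁⟩ := pos_lb (range Ms) (fun k => δ k * Rr k) fun k hk =>
    mul_pos (hδ k (mem_range.1 hk)) (hRr k (mem_range.1 hk))
  replace hc₁ : ∀ k < Ms, c₀ ≤ δ k * Rr k := fun k hk => hc₁ k (mem_range.2 hk)
  -- Tn
  obtain ⟨B, hB⟩ := ((range Ms ×ˢ range ⌈a⌉₊).image fun p : ℕ × ℕ =>
    (τ 0 : ℝ) + a * Rr p.1 / (a - p.2) + 1).exists_le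
  obtain ⟨Tn, hTn⟩ := exists_nat_ge (max B (max 1 (max (pzD (τ 0) b) (τ 0))))
  obtain ⟨hT1, hT2⟩ := max_le_iff.1 hTn
  obtain ⟨hT3, hT4⟩ := max_le_iff.1 hT2
  obtain ⟨hT5, hT6⟩ := max_le_iff.1 hT4
  have hTp : 1 ≤ Tn := by exact_mod_cast hT3
  have hT0 : (0 : ℝ) < Tn := by linarith only [hT3]
  -- Nf
  obtain ⟨Nf, hNf⟩ := exists_nat_ge (max (8 * b) (128 * b / c₀))
  obtain ⟨hN1, hN2⟩ := max_le_iff.1 hNf
  have hN3 : (8 : ℝ) < Nf := by linarith only [hN1, ha1, hab]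
  have hNp : 8 < Nf := by exact_mod_cast hN3
  have hNc : 128 * b ≤ c₀ * Nf := by
    rw [div_le_iff₀ hc₀] at hN2
    linarith only [hN2]
  have hM2 : 2 ≤ Nf * Tn := by nlinarith only [hNp, hTp]
  have hM1 : (1 : ℝ) ≤ ((Nf * Tn : ℕ) : ℝ) := by exact_mod_cast (by omega : 1 ≤ Nf * Tn)
  -- ε₁
  obtain ⟨ε₁, hε₁, hε₂⟩ : ∃ ε₁ : ℝ, 0 < ε₁ ∧ 16 * ε₁ * Tn ≤ c₀ :=
    ⟨c₀ / (16 * Tn), by positivity, le_of_eq (by field_simp)⟩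
  -- n
  obtain ⟨n, hn⟩ := exists_nat_ge ((((⌊a⌋₊ : ℝ) + 1) * (a + b + 1) +
    2 * (a * Rr 0 / Tn + b * Rr 0 / Tn + 1) + 1) / ε₁)
  rw [div_le_iff₀ hε₁] at hn
  have hMn : (1 : ℝ) ≤ ((Nf * Tn : ℕ) : ℝ) ^ n := one_le_pow₀ hM1
  -- lm
  obtain ⟨lm, hlm, hlm1, hlm2⟩ : ∃ lm : ℝ, 0 < lm ∧ lm * (((Nf * Tn : ℕ) : ℝ) ^ n * Tn) ≤ 1 ∧
      lm ≤ 1 := by
    have h1 : (1 : ℝ) ≤ ((Nf * Tn : ℕ) : ℝ) ^ n * Tn := by nlinarith only [hMn, hT3]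
    refine ⟨1 / (((Nf * Tn : ℕ) : ℝ) ^ n * Tn), by positivity, le_of_eq ?_, ?_⟩
    · rw [one_div, inv_mul_cancel₀]
      positivity
    · rw [div_le_one (by positivity)]
      exact h1
  -- X
  obtain ⟨X, hX⟩ : ∃ X : ℝ, max (max (2 * ((a + b + K + 8) * τ 0) + 8) (4 * (r + 1)))
      (max (max (12 * (R₁ + 2)) (a + 1 + a * Rr 0 / Tn + 2))
        (max (b * -V₀ + b * (b * τ 0) + 2 * (b * τ 0) + τ 0 + 6)
          (a + a * (a * τ 0) + 2 * (a * τ 0) + τ 0 + 3))) ≤ X := ⟨_, le_rfl⟩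
  obtain ⟨hX0, hX0'⟩ := max_le_iff.1 hX
  obtain ⟨hX1, hX2⟩ := max_le_iff.1 hX0
  obtain ⟨hX3, hX4⟩ := max_le_iff.1 hX0'
  obtain ⟨hX5, hX6⟩ := max_le_iff.1 hX3
  obtain ⟨hX7, hX8⟩ := max_le_iff.1 hX4
  have hXp : 0 < X := by
    have h1 : (0 : ℝ) < 4 * (r + 1) := by positivity
    linarith only [h1, hX2]
  -- φ
  have hr0 : (0 : ℝ) < 64 * (r + 1) := by positivity
  obtain ⟨φ, hφ, hφ1, hφ2⟩ : ∃ φ : ℝ, 0 < φ ∧ 8 * φ ≤ lm ∧ 64 * (r + 1) * φ ≤ c₀ * lm := by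
    refine ⟨min (lm / 8) (c₀ * lm / (64 * (r + 1))), lt_min (by positivity) (by positivity), ?_, ?_⟩
    · have h1 := min_le_left (lm / 8) (c₀ * lm / (64 * (r + 1)))
      linarith only [h1]
    · have h1 := min_le_right (lm / 8) (c₀ * lm / (64 * (r + 1)))
      rw [le_div_iff₀ hr0] at h1
      linarith only [h1]
  -- kf, ℓ
  obtain ⟨kf, hkf⟩ : ∃ kf : ℝ, max (3 ^ r * X) (b * τ 0 + 2 * (r + 1) * φ + 1) ≤ kf := ⟨_, le_rfl⟩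
  obtain ⟨hk1, hk2⟩ := max_le_iff.1 hkf
  obtain ⟨ℓ, hℓ⟩ : ∃ ℓ : ℝ, max (kf + τ 0 + R₁ + 2) (max (3 ^ r * X + τ 0 + 1)
      (b * τ 0 + τ 0 + 1)) ≤ ℓ := ⟨_, le_rfl⟩
  obtain ⟨hl1, hl2⟩ := max_le_iff.1 hℓ
  obtain ⟨hl3, hl4⟩ := max_le_iff.1 hl2
  -- e'
  obtain ⟨e', he', he1, he2, he3⟩ : ∃ e' : ℝ, 0 < e' ∧ e' ≤ φ / 16 ∧ e' ≤ γ₁ * lm ∧
      256 * e' ≤ c₀ * lm := by
    refine ⟨min (φ / 16) (min (γ₁ * lm) (c₀ * lm / 256)),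
      lt_min (by positivity) (lt_min (by positivity) (by positivity)), min_le_left _ _,
      (min_le_right _ _).trans (min_le_left _ _), ?_⟩
    have h1 := (min_le_right (φ / 16) (min (γ₁ * lm) (c₀ * lm / 256))).trans (min_le_right _ _)
    linarith only [h1]
  -- Nw
  obtain ⟨Nw, hNw⟩ := exists_nat_ge (max 1 (32 * b / e'))
  obtain ⟨hw1, hw2⟩ := max_le_iff.1 hNw
  have hw3 : b / (((Nf * Tn) ^ n * Nw : ℕ) : ℝ) ≤ e' / 32 := by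
    have h1 : (Nw : ℝ) ≤ (((Nf * Tn) ^ n * Nw : ℕ) : ℝ) := by
      rw [Nat.cast_mul, Nat.cast_pow]
      exact le_mul_of_one_le_left (by linarith only [hw1]) hMn
    rw [div_le_iff₀ (by linarith only [h1, hw1])]
    rw [div_le_iff₀ he'] at hw2
    nlinarith only [hw2, h1, he']
  -- KB
  obtain ⟨KB, hKB⟩ : ∃ KB : ℝ, max (max (ℓ + 1) (τ 0 + 3 ^ r * X + 3))
      (max (2 * (a + b) * τ 0 + 2) (τ 0 + K₀ + 2 * R₁ + 7)) ≤ KB := ⟨_, le_rfl⟩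
  obtain ⟨hKB1, hKB2⟩ := max_le_iff.1 hKB
  obtain ⟨hKB3, hKB4⟩ := max_le_iff.1 hKB1
  obtain ⟨hKB5, hKB6⟩ := max_le_iff.1 hKB2
  -- el₀
  have hden : 0 < 2 * ((K₀ + 2 * R₁ + 5) / lm + τ 0) := by positivity
  refine ⟨Tn, Nf, n, Nw, lm, ε₁, X, φ, kf, ℓ, e', KB, γ₁ / (2 * ((K₀ + 2 * R₁ + 5) / lm + τ 0)),
    min (b * Real.log 2) γ₁, max (KB + (b + 1) * (R₁ + 2) + 1) (-V₀ + 2), e' / 256, hlm, hXp, he',
    div_pos hγ₁ hden, lt_min (mul_pos hb0 (Real.log_pos one_lt_two)) hγ₁, by positivity, ?_⟩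
  intro K' hK' ε hε hεe el dl hel hel1 hdl hdl1
  obtain ⟨hK1, hK2⟩ := max_le_iff.1 hK'
  obtain ⟨hd1, hd2⟩ := le_min_iff.1 hdl1
  rw [le_div_iff₀ hden] at hel1
  refine ⟨hK₀, hR₁, hV₀, hTp, hT5, ?_, by exact_mod_cast hT6, by omega, hN1, ?_, hM2, hε₁, ?_, ?_,
    hlm, hlm1, by exact_mod_cast hw1, hX1, ?_, hX5, hX6, hX7, hX8, hk1, hk2, hl1, hl3, hl4, hKB3,
    hKB4, hKB5, hKB6, hK1, hK2, hφ, hφ1, ?_, he', he1, he2, ?_, hε, by linarith only [hεe], hw3,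
    hel, hdl, hd1, hd2, hel1⟩
  · intro k hk i hi
    refine (hB _ (mem_image.2 ⟨(k, i), mem_product.2 ⟨mem_range.2 hk, mem_range.2 ?_⟩, rfl⟩)).trans
      hT1
    exact Nat.lt_ceil.2 hi
  · intro k hk
    have h1 := hc₁ k hk
    nlinarith only [h1, hNc, hN3]
  · intro k hk
    exact hε₂.trans (hc₁ k hk)
  · exact hn.trans (le_of_eq (mul_comm _ _))
  · have h1 : φ ≤ 1 / 8 := by linarith only [hφ1, hlm2]
    have h2 : (0 : ℝ) ≤ r := Nat.cast_nonneg r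
    nlinarith only [h1, h2, hX2]
  · intro k hk
    have h1 := hc₁ k hk
    nlinarith only [h1, hφ2, hlm]
  · intro k hk
    have h1 := hc₁ k hk
    nlinarith only [h1, he3, hlm]

end Pool.PN18
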